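import Pool.Agent.NTW.StmtsD

/-!
# NTW squad, row PZW: assembly of the periodic simplex
-/

set_option autoImplicit false

open Matrix Filter Topology

namespace Pool.Agent.NTW.H7

open Pool.Agent.PFS Pool.Agent.PFJ Pool.Agent.NTS

theorem pzw (hEIW : EiwStmt) (hZBW : ZbwStmt) (hBPW : BpwStmt) (hSEW : SewStmt) : PzwStmt := by
  intro n C Γ k c τ hD hN w hw
  have hCC : CC C Γ := hD.toCC
  have hP : PCone C := hCC.toPCone
  have h3 : 3 ≤ k + 1 := hD.three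
  obtain ⟨w', σ, nu, hw', hL, hσ, hnu, hne⟩ :=
    hBPW n C Γ (k + 1) c τ hD w hw (hZBW n C Γ (k + 1) c τ hD hN w hw)
  refine ⟨w', hw', hL, ?_⟩
  have hpes : IsPES C Γ w' := hw'.pes
  have hind : LinearIndependent ℝ w' := Pool.Agent.PFS.H60.lin n C hP _ w' hpes.1
  have hF := (Pool.Agent.PFS.H32.frz n C hP _ w' hind).mp hpes.1
  refine ⟨hind, hF.1, hF.2, ?_, ?_⟩
  · intro m v hvind hv1 hv2 hsub
    have hvP : PES C v := (Pool.Agent.PFS.H32.frz n C hP _ v hvind).mpr ⟨hv1, hv2⟩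
    exact Pool.Agent.PFJ.H83.mxe n C hP (k + 1) (by omega) w' hpes.1
      (fun i => ((hEIW n C Γ (k + 1) c τ hD w' hw').2.2.1 i).1) (m + 1) v hvP hsub
  · have hZ := hZBW n C Γ (k + 1) c τ hD hN w' hw'
    obtain ⟨χ, hχ, hχl⟩ := Pool.Agent.PFS.H81.chi k
      {χ : Fin (k + 1) → ℝ | ∃ γ ∈ Γ, ∀ i, act γ (w' i) = Real.exp (χ i) • w' i} (by
        intro ℓ hℓ hs
        obtain ⟨γ, hγ, χ, h4, h5⟩ :=
          hSEW n C Γ (k + 1) c τ hD w' hw' hZ σ nu hσ hnu hne ℓ hℓ hs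
        exact ⟨χ, ⟨γ, hγ, h4⟩, h5⟩)
    choose γ hγ hγχ using hχ
    exact Pool.Agent.PFS.H37.abeF n C Γ hCC k w' hpes γ χ hγ hγχ hχl

end Pool.Agent.NTW.H7
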